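import Mathlib
import Pool.Agent.Helper8.RM.Upper
import Pool.Agent.Helper44.RMC.Limit

/-!
# The minimum regularity of maximal `(2,3)`-antichains: the limit of `r_min(n) / n` exists
-/

set_option autoImplicit false

namespace Pool.Agent.Results.MP_8b97a7_co.LimitExists

open Pool.Agent.Helper8.RM Pool.Agent.Helper18.RM Pool.Agent.Helper44.RMC

/-- `rmin n / n` converges to a limit `L`; `1 - L` is the supremum of `m / k` over the tight
structures with `k` vertices and parameter `m`; hence `L = 13/14` (the conjecture) if and only if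
every finite tight structure with parameter `m` has at least `14 m` vertices. -/
theorem result : ∃ L : ℝ,
    Filter.Tendsto (fun n : ℕ => (rmin n : ℝ) / n) Filter.atTop (nhds L) ∧
    IsLUB {s : ℝ | ∃ k m : ℕ, 0 < k ∧ Nonempty (Tight (Fin k) m) ∧ s = m / k} (1 - L) ∧
    (L = 13 / 14 ↔ ∀ k m : ℕ, 0 < k → Nonempty (Tight (Fin k) m) → 14 * m ≤ k) := by
  refine ⟨1 - sSup dens, tendsto_rmin antichain_of_tight, ?_, ?_⟩
  · rw [sub_sub_cancel]
    exact isLUB_csSup ⟨_, fourteen_mem⟩ bdd
  · rw [← sSup_eq_iff]
    constructor <;> intro h <;> linarith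

end Pool.Agent.Results.MP_8b97a7_co.LimitExists
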