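import Mathlib
import Pool.Agent.Helper8.RM.Core2
import Pool.Agent.Helper18.RM.Main

/-!
# The minimum regularity of maximal `(2,3)`-antichains: `r_min(n) ≥ (√35 - 5 - o(1)) n`
-/

set_option autoImplicit false

namespace Pool.Agent.Results.MP_8b97a7_co.LowerBound

open Pool.Agent.Helper8.RM Pool.Agent.Helper18.RM

/-- For every `ε > 0` and all large `n`, the least regularity `rmin n` of a regular maximal
`(2,3)`-antichain on `n` points is attained and is at least `(√35 - 5 - ε) n`. -/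
theorem result (ε : ℝ) (hε : 0 < ε) : ∃ N₀ : ℕ, ∀ n ≥ N₀,
    (∃ A : Finset (Finset (Fin n)), IsMax23 n A ∧ IsReg n A (rmin n)) ∧
      (√35 - 5 - ε) * n ≤ (rmin n : ℝ) := by
  obtain ⟨N₁, hN₁⟩ := tight_of_antichain (ε / 2) (by positivity)
  obtain ⟨N₂, hN₂⟩ := exists_nat_ge (2 / ε)
  refine ⟨max N₁ (max N₂ 3), fun n hn => ?_⟩
  have h1 : N₁ ≤ n := (le_max_left _ _).trans hn
  have h2 : N₂ ≤ n := ((le_max_left _ _).trans (le_max_right _ _)).trans hn
  have h3 : 3 ≤ n := ((le_max_right _ _).trans (le_max_right _ _)).trans hn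
  obtain ⟨A, hA, hr⟩ := rmin_mem h3
  refine ⟨⟨A, hA, hr⟩, ?_⟩
  have hs : √35 * √35 = 35 := Real.mul_self_sqrt (by norm_num)
  have hs0 : 0 ≤ √35 := Real.sqrt_nonneg _
  have hs6 : √35 < 6 := by nlinarith
  have hn0 : (0 : ℝ) ≤ n := Nat.cast_nonneg n
  have hn2 : 1 ≤ ε / 2 * n := by
    have h4 : 2 / ε ≤ (n : ℝ) := hN₂.trans (by exact_mod_cast h2)
    rw [div_le_iff₀ hε] at h4
    linarith
  by_cases hc : ε / 2 * n ≤ (n : ℝ) - 1 - rmin n
  · obtain ⟨W, m, hW, hm, ⟨T⟩⟩ := hN₁ n h1 A (rmin n) hA hr hc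
    haveI : Nonempty W := hW.to_subtype
    have h5 := T.card_ge_sqrt
    have h6 : (Fintype.card W : ℝ) ≤ n := by
      have : Fintype.card W ≤ n := by
        rw [Fintype.card_coe]
        exact (Finset.card_le_univ W).trans (by simp)
      exact_mod_cast this
    have h7 : (m : ℝ) ≤ (6 - √35) * n := by
      have h8 : (6 - √35) * ((6 + √35) * m) ≤ (6 - √35) * n :=
        mul_le_mul_of_nonneg_left (h5.trans h6) (by linarith)
      have h9 : (6 - √35) * ((6 + √35) * m) = (m : ℝ) := by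
        have : (6 - √35) * (6 + √35) = 1 := by linarith
        rw [← mul_assoc, this, one_mul]
      linarith
    linarith
  · push Not at hc
    have : (6 - √35) * (n : ℝ) ≥ 0 := mul_nonneg (by linarith) hn0
    linarith

end Pool.Agent.Results.MP_8b97a7_co.LowerBound
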