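import Pool.Agent.Helper66.RMP.Least

/-!
MP_8b97a7_co: the exact minimum regularity of maximal (2,3)-antichains of matching type.
-/

set_option autoImplicit false

namespace Pool.Agent.Results.MP_8b97a7_co.MatchingType

open Pool.Agent.Helper8.RM Pool.Agent.Helper66.RMP

/-- For every `n ≥ 3`, the least `r` such that there is an `r`-regular maximal `(2,3)`-antichain
of matching type on `n` points is `n - 2 - ⌊n/14⌋`. -/
theorem result (n : ℕ) (hn : 3 ≤ n) :
    IsLeast {r : ℕ | ∃ A : Finset (Finset (Fin n)),
      IsMax23 n A ∧ IsReg n A r ∧ MatchingType n A} (n - 2 - n / 14) :=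
  least n hn

end Pool.Agent.Results.MP_8b97a7_co.MatchingType
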